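import Pool.Agent.Q303.TRMain

/-! MP_06d84d_lc: every nonsmooth countable Borel equivalence relation has a transitive continuous
action realization, on a perfect Polish space. -/

open Set Topology

namespace Pool.Agent.Results.MP_06d84d_lc.TransitivePerfect

/-- `E` is a countable Borel equivalence relation -/
def CBER {X : Type} [MeasurableSpace X] (E : X → X → Prop) : Prop :=
  Equivalence E ∧ MeasurableSet {p : X × X | E p.1 p.2} ∧ ∀ x : X, {y : X | E x y}.Countable

/-- `E` is smooth -/
def Smooth {X : Type} [MeasurableSpace X] (E : X → X → Prop) : Prop :=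
  ∃ f : X → ℝ, Measurable f ∧ ∀ x y, E x y ↔ f x = f y

/-- Every nonsmooth countable Borel equivalence relation `E` is Borel isomorphic to the orbit
equivalence relation of a continuous action of a countable group on a Polish space without isolated
points, such that some orbit is dense. -/
theorem result {X : Type} [MeasurableSpace X] [StandardBorelSpace X] (E : X → X → Prop)
    (hE : CBER E) (hns : ¬ Smooth E) :
    ∃ (G : Type) (_ : Group G) (_ : Countable G) (Y : Type) (_ : TopologicalSpace Y)
      (_ : PolishSpace Y) (_ : MeasurableSpace Y) (_ : BorelSpace Y) (_ : MulAction G Y)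
      (_ : ContinuousConstSMul G Y) (f : X ≃ᵐ Y),
      (∀ a b : X, E a b ↔ ∃ g : G, g • f a = f b) ∧
      (∃ y : Y, Dense (MulAction.orbit G y)) ∧
      ∀ y : Y, ¬ IsOpen ({y} : Set Y) := by
  obtain ⟨G, i1, i2, Y, i3, i4, i5, i6, i7, i8, f, h1, ⟨y, hy⟩, h3⟩ :=
    Pool.Agent.Q303.TR.main E hE.1 hE.2.1 hE.2.2 hns
  exact ⟨G, i1, i2, Y, i3, i4, i5, i6, i7, i8, f, h1, ⟨y, hy⟩, h3⟩

end Pool.Agent.Results.MP_06d84d_lc.TransitivePerfect
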